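import Pool.Agent.H2.AVR.NRM
import Pool.Agent.H14.AVS.S3

/-!
# NR2: normal form of unimodular ternary forms over the projective line, with the change of
basis at infinity (after Pool.Agent.H2.AVR.NRM)
-/

set_option autoImplicit false
set_option linter.all false

namespace Pool.AVS.NR2

open Polynomial Matrix Pool.AVR Pool.AVR.BIR2 Pool.AVR.NRM2

variable {F : Type} [Field F]

lemma core (h2 : (2 : F) ≠ 0) (m : ℕ) (G : Matrix (Fin 3) (Fin 3) F[X]) (ε : F) (hε : ε ≠ 0)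
    (hG : Gᵀ = G) (hdet : G.det = - Polynomial.C (ε ^ 2))
    (hGd : ∀ i j, DB (G i j) (dd m i + dd m j)) (h00 : G 0 0 = 0) (h01 : G 0 1 = 0) :
    ∃ γ : Matrix (Fin 3) (Fin 3) F[X], γᵀ * G * γ = AA F[X] ∧
      ∀ i j, DB (γ i j) (dd m j - dd m i) := by
  have hGs : ∀ i j, G i j = G j i := fun i j => by
    conv_lhs => rw [← hG]
    rfl
  obtain ⟨α, hα⟩ : ∃ α : F, G 0 2 = Polynomial.C α :=
    ⟨_, (hGd 0 2).eq_C (by simp [dd])⟩
  obtain ⟨β, hβ⟩ : ∃ β : F, G 1 1 = Polynomial.C β :=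
    ⟨_, (hGd 1 1).eq_C (by simp [dd])⟩
  have hGe : G = !![0, 0, Polynomial.C α; 0, Polynomial.C β, G 1 2;
      Polynomial.C α, G 1 2, G 2 2] := by
    ext1 i j
    fin_cases i <;> fin_cases j <;> simp [h00, h01, hα, hβ, hGs 1 0, hGs 2 0, hGs 2 1]
  have hdet2 : α ^ 2 * β = ε ^ 2 := by
    rw [hGe] at hdet
    simp [Matrix.det_fin_three] at hdet
    have : Polynomial.C (α ^ 2 * β) = Polynomial.C (ε ^ 2) := by
      simp only [map_mul, map_pow]
      linear_combination hdet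
    exact Polynomial.C_injective this
  have hα0 : α ≠ 0 := by
    rintro rfl
    apply hε
    have : ε ^ 2 = 0 := by rw [← hdet2]; ring
    exact pow_eq_zero_iff (two_ne_zero) |>.1 this
  have hβ0 : β ≠ 0 := by
    rintro rfl
    apply hε
    have : ε ^ 2 = 0 := by rw [← hdet2]; ring
    exact pow_eq_zero_iff (two_ne_zero) |>.1 this
  have hs : (Polynomial.C (α / ε)) ^ 2 * Polynomial.C β = (1 : F[X]) := by
    rw [← Polynomial.C_pow, ← Polynomial.C_mul, ← Polynomial.C_1]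
    congr 1
    field_simp
    linear_combination hdet2
  have ha : Polynomial.C α * Polynomial.C α⁻¹ = (1 : F[X]) := by
    rw [← Polynomial.C_mul, mul_inv_cancel₀ hα0, Polynomial.C_1]
  have hb : Polynomial.C β * Polynomial.C β⁻¹ = (1 : F[X]) := by
    rw [← Polynomial.C_mul, mul_inv_cancel₀ hβ0, Polynomial.C_1]
  have hk : 2 * Polynomial.C (2 : F)⁻¹ = (1 : F[X]) := by
    have : (2 : F[X]) = Polynomial.C (2 : F) := rfl
    rw [this, ← Polynomial.C_mul, mul_inv_cancel₀ h2, Polynomial.C_1]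
  set γ : Matrix (Fin 3) (Fin 3) F[X] :=
    !![1, 0, -Polynomial.C (2 : F)⁻¹ * (Polynomial.C α⁻¹) ^ 2 *
        (G 2 2 - Polynomial.C β⁻¹ * (G 1 2) ^ 2);
       0, Polynomial.C (α / ε), -Polynomial.C α⁻¹ * Polynomial.C β⁻¹ * G 1 2;
       0, 0, Polynomial.C α⁻¹] with hγ
  refine ⟨γ, ?_, ?_⟩
  · conv_lhs => rw [hGe]
    exact gram _ _ _ _ _ _ _ _ ha hb hs hk
  · intro i j
    have hg := hGd 1 2
    have hh := hGd 2 2
    have e1 : dd m 0 = -(m : ℤ) := rfl
    have e2 : dd m 1 = 0 := rfl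
    have e3 : dd m 2 = (m : ℤ) := rfl
    have hC : ∀ (c : F) (p : F[X]) (z : ℤ), DB p z → DB (Polynomial.C c * p) z := fun c p z hp =>
      ((DB.C c le_rfl).mul hp).mono (by omega)
    have h1 : DB (1 : F[X]) 0 := by
      rw [← Polynomial.C_1]; exact DB.C _ le_rfl
    fin_cases i <;> fin_cases j
    · exact h1.mono (by simp [dd])
    · exact DB.zero _
    · show DB (-Polynomial.C (2 : F)⁻¹ * (Polynomial.C α⁻¹) ^ 2 *
        (G 2 2 - Polynomial.C β⁻¹ * (G 1 2) ^ 2)) (dd m 2 - dd m 0)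
      have e : -Polynomial.C (2 : F)⁻¹ * (Polynomial.C α⁻¹) ^ 2 *
        (G 2 2 - Polynomial.C β⁻¹ * (G 1 2) ^ 2) = -(Polynomial.C (2 : F)⁻¹ *
          (Polynomial.C α⁻¹ * (Polynomial.C α⁻¹ *
            (G 2 2 - Polynomial.C β⁻¹ * (G 1 2 * G 1 2))))) := by ring
      rw [e]
      refine DB.neg (hC _ _ _ (hC _ _ _ (hC _ _ _ (DB.sub ?_ (hC _ _ _ ?_)))))
      · exact hh.mono (by omega)
      · exact (hg.mul hg).mono (by omega)
    · exact DB.zero _
    · exact (DB.C _ le_rfl).mono (by simp [dd])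
    · show DB (-Polynomial.C α⁻¹ * Polynomial.C β⁻¹ * G 1 2) (dd m 2 - dd m 1)
      have e : -Polynomial.C α⁻¹ * Polynomial.C β⁻¹ * G 1 2 =
        -(Polynomial.C α⁻¹ * (Polynomial.C β⁻¹ * G 1 2)) := by ring
      rw [e]
      exact DB.neg (hC _ _ _ (hC _ _ _ (hg.mono (by omega))))
    · exact DB.zero _
    · exact DB.zero _
    · exact (DB.C _ le_rfl).mono (by simp [dd])

lemma sorted [Finite F] (h2 : (2 : F) ≠ 0) (G : Matrix (Fin 3) (Fin 3) F[X])
    (d : Fin 3 → ℤ) (ε : F) (hε : ε ≠ 0) (hG : Gᵀ = G)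
    (hdet : G.det = - Polynomial.C (ε ^ 2)) (hd1 : d 0 ≤ d 1) (hd2 : d 1 ≤ d 2)
    (hsum : d 0 + d 1 + d 2 = 0) (hGd : ∀ i j, DB (G i j) (d i + d j)) :
    ∃ (m : ℕ) (γ : Matrix (Fin 3) (Fin 3) F[X]), γᵀ * G * γ = AA F[X] ∧
      ∀ i j, DB (γ i j) (dd m j - d i) := by
  have hGs : ∀ i j, G i j = G j i := fun i j => by
    conv_lhs => rw [← hG]
    rfl
  have hdet0 : G.det ≠ 0 := by
    rw [hdet, neg_ne_zero]
    simpa using hε
  have a1 : 0 ≤ d 0 + d 2 := by
    by_contra h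
    apply hdet0
    have b0 : G 0 0 = 0 := (hGd 0 0).eq_zero (by omega)
    have b1 : G 0 1 = 0 := (hGd 0 1).eq_zero (by omega)
    have b2 : G 0 2 = 0 := (hGd 0 2).eq_zero (by omega)
    rw [Matrix.det_fin_three, b0, b1, b2]
    ring
  have a2 : d 1 = 0 := by
    by_contra h
    apply hdet0
    have b0 : G 0 0 = 0 := (hGd 0 0).eq_zero (by omega)
    have b1 : G 0 1 = 0 := (hGd 0 1).eq_zero (by omega)
    have b2 : G 1 1 = 0 := (hGd 1 1).eq_zero (by omega)
    have b3 : G 1 0 = 0 := by rw [hGs]; exact b1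
    rw [Matrix.det_fin_three, b0, b1, b2, b3]
    ring
  obtain ⟨m, hm⟩ := Int.eq_ofNat_of_zero_le (show 0 ≤ d 2 by omega)
  have hdd : ∀ i, d i = dd m i := by
    intro i
    fin_cases i
    · show d 0 = -(m : ℤ)
      omega
    · show d 1 = 0
      omega
    · show d 2 = (m : ℤ)
      omega
  have hGd' : ∀ i j, DB (G i j) (dd m i + dd m j) := fun i j => by
    rw [← hdd, ← hdd]; exact hGd i j
  refine ⟨m, ?_⟩
  have e1 : dd m 0 = -(m : ℤ) := rfl
  have e2 : dd m 1 = 0 := rfl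
  have e3 : dd m 2 = (m : ℤ) := rfl
  rcases Nat.eq_zero_or_pos m with h0 | hpos
  swap
  · simp only [hdd]
    exact core h2 m G ε hε hG hdet hGd' ((hGd' 0 0).eq_zero (by omega))
      ((hGd' 0 1).eq_zero (by omega))
  -- m = 0
  subst h0
  have hz : ∀ i, dd 0 i = 0 := by
    intro i
    fin_cases i <;> rfl
  set G1 : Matrix (Fin 3) (Fin 3) F := G.map (fun p => p.coeff 0) with hG1
  have hGe : G = G1.map Polynomial.C := by
    ext1 i j
    exact (hGd' i j).eq_C (by rw [hz, hz]; norm_num)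
  have hG1s : G1ᵀ = G1 := by
    rw [hG1, ← Matrix.transpose_map, hG]
  have hG1det : G1.det = - ε ^ 2 := by
    have : Polynomial.C G1.det = Polynomial.C (-ε ^ 2) := by
      rw [RingHom.map_det]
      show (G1.map Polynomial.C).det = _
      rw [← hGe, hdet]
      simp
    exact Polynomial.C_injective this
  have hG1det0 : G1.det ≠ 0 := by
    rw [hG1det, neg_ne_zero]
    exact pow_ne_zero _ hε
  obtain ⟨v, hv, hvv⟩ := isotropic G1
  obtain ⟨γ₀, hγdet, h00, h01⟩ := base0 G1 hG1s hG1det0 v hv hvv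
  set γ₁ : Matrix (Fin 3) (Fin 3) F[X] := γ₀.map Polynomial.C with hγ₁
  have hconj : γ₁ᵀ * G * γ₁ = (γ₀ᵀ * G1 * γ₀).map Polynomial.C := by
    rw [hGe, hγ₁, Matrix.map_mul, Matrix.map_mul, Matrix.transpose_map]
  have hγ₁det : γ₁.det = 1 := by
    have : γ₁.det = Polynomial.C γ₀.det := by
      rw [RingHom.map_det]; rfl
    rw [this, hγdet, map_one]
  obtain ⟨γ₂, hγ₂, hγ₂'⟩ := core h2 0 (γ₁ᵀ * G * γ₁) ε hε
    (by rw [Matrix.transpose_mul, Matrix.transpose_mul, Matrix.transpose_transpose, hG,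
      Matrix.mul_assoc])
    (by rw [Matrix.det_mul, Matrix.det_mul, Matrix.det_transpose, hγ₁det, hdet]; ring)
    (fun i j => by rw [hconj, hz, hz]; exact DB.C _ (by norm_num))
    (by rw [hconj, Matrix.map_apply, h00, map_zero])
    (by rw [hconj, Matrix.map_apply, h01, map_zero])
  refine ⟨γ₁ * γ₂, ?_, ?_⟩
  · rw [← hγ₂, Matrix.transpose_mul]
    simp only [Matrix.mul_assoc]
  · intro i j
    rw [hdd, hz, hz, sub_zero, Matrix.mul_apply]
    refine DB.sum fun l => ?_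
    have h3 : DB (γ₁ i l) 0 := DB.C _ le_rfl
    have h4 : DB (γ₂ l j) 0 := by
      have := hγ₂' l j
      rwa [hz, hz, sub_zero] at this
    exact (h3.mul h4).mono (by norm_num)

end Pool.AVS.NR2

namespace Pool.AVS

open Polynomial Matrix Pool.AVR Pool.AVR.BIR2 Pool.AVR.NRM2

theorem nr2_thm : NR2Stmt := by
  classical
  intro F _ _ h2 G G₀ d ε hε hG hdet hG0 hGe
  have hX0 : (RatFunc.X : RatFunc F) ≠ 0 := RatFunc.X_ne_zero
  obtain ⟨hG0m, hG0d, hG0d1, hG0d2⟩ := hG0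
  have hG0m' : ∀ i j, G₀ i j ∈ OInf F := hG0m
  have hdet' : G.det = - Polynomial.C (ε ^ 2) := hdet
  have hGd : ∀ i j, DB (G i j) (d i + d j) := by
    intro i j
    refine DB.of_rat (hG0m' i j) ?_
    have := congrFun (congrFun hGe i) j
    rw [Matrix.map_apply, Matrix.mul_diagonal, Matrix.diagonal_mul] at this
    rw [this, zpow_add₀ hX0]
    ring
  have hsum : d 0 + d 1 + d 2 = 0 := by
    have h1 := congrArg Matrix.det hGe
    rw [Matrix.det_mul, Matrix.det_mul, Matrix.det_diagonal] at h1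
    have h3 : (G.map (algebraMap F[X] (RatFunc F))).det = RatFunc.C (-ε ^ 2) := by
      have : (G.map (algebraMap F[X] (RatFunc F))).det = algebraMap F[X] (RatFunc F) G.det := by
        rw [RingHom.map_det]; rfl
      rw [this, hdet]
      simp
    have h4 : ∏ i, (RatFunc.X : RatFunc F) ^ d i = RatFunc.X ^ (d 0 + d 1 + d 2) := by
      rw [Fin.prod_univ_three, zpow_add₀ hX0, zpow_add₀ hX0]
    rw [h3, h4] at h1
    have h5 := congrArg RatFunc.intDegree h1
    rw [RatFunc.intDegree_C, RatFunc.intDegree_mul (mul_ne_zero (zpow_ne_zero _ hX0) hG0d)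
      (zpow_ne_zero _ hX0), RatFunc.intDegree_mul (zpow_ne_zero _ hX0) hG0d,
      intDegree_X_zpow] at h5
    have h6 : G₀.det.intDegree ≤ 0 := hG0d1
    have h7 : (G₀.det)⁻¹.intDegree ≤ 0 := hG0d2
    rw [RatFunc.intDegree_inv] at h7
    omega
  set σ : Equiv.Perm (Fin 3) := Tuple.sort d with hσ
  have hmono : Monotone (d ∘ σ) := Tuple.monotone_sort d
  have hs1 : d (σ 0) ≤ d (σ 1) := hmono (by decide)
  have hs2 : d (σ 1) ≤ d (σ 2) := hmono (by decide)
  have hs3 : d (σ 0) + d (σ 1) + d (σ 2) = 0 := by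
    have := Equiv.sum_comp σ d
    rw [Fin.sum_univ_three, Fin.sum_univ_three] at this
    rw [this, hsum]
  obtain ⟨m, γ, hγ, hγ'⟩ := NR2.sorted h2 (G.submatrix σ σ) (fun i => d (σ i)) ε hε
    (by rw [Matrix.transpose_submatrix, hG])
    (by rw [Matrix.det_submatrix_equiv_self, hdet']) hs1 hs2 hs3 (fun i j => hGd _ _)
  have key : ∀ M : Matrix (Fin 3) (Fin 3) F[X], (γ.submatrix σ.symm id)ᵀ * M *
      (γ.submatrix σ.symm id) = γᵀ * M.submatrix σ σ * γ := by
    intro M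
    ext1 i j
    simp only [Matrix.mul_apply, Matrix.transpose_apply, Matrix.submatrix_apply, id]
    rw [← Equiv.sum_comp σ]
    refine Finset.sum_congr rfl fun l _ => ?_
    rw [← Equiv.sum_comp σ]
    simp only [Equiv.symm_apply_apply]
  set δ : Matrix (Fin 3) (Fin 3) F[X] := γ.submatrix σ.symm id with hδ
  have hδ1 : δᵀ * G * δ = AA F[X] := by rw [key]; exact hγ
  have hδ2 : ∀ i j, DB (δ i j) (dd m j - d i) := by
    intro i j
    have := hγ' (σ.symm i) j
    simp only [Equiv.apply_symm_apply] at this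
    exact this
  -- the determinant of δ is a nonzero constant
  have hδdet : ∃ c : F, c ≠ 0 ∧ δ.det = Polynomial.C c := by
    have h1 := congrArg Matrix.det hδ1
    rw [Matrix.det_mul, Matrix.det_mul, Matrix.det_transpose, hdet'] at h1
    have hA : (AA F[X]).det = -1 := by
      rw [Matrix.det_fin_three]
      simp [AA]
    rw [hA] at h1
    have h3 : δ.det * (δ.det * Polynomial.C (ε ^ 2)) = 1 := by linear_combination -h1
    have h4 : IsUnit δ.det := IsUnit.of_mul_eq_one _ h3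
    obtain ⟨c, hc, hc'⟩ := Polynomial.isUnit_iff.1 h4
    exact ⟨c, hc.ne_zero, hc'.symm⟩
  have hDinv : (Dm m : Matrix (Fin 3) (Fin 3) (RatFunc F))⁻¹ =
      Matrix.diagonal fun i => (RatFunc.X : RatFunc F) ^ (-dd m i) := by
    refine Matrix.inv_eq_right_inv ?_
    rw [Dm, Matrix.diagonal_mul_diagonal]
    have : (fun i => (RatFunc.X : RatFunc F) ^ dd m i * RatFunc.X ^ (-dd m i)) = fun _ => 1 := by
      funext i
      rw [← zpow_add₀ hX0, add_neg_cancel, zpow_zero]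
    rw [this, Matrix.diagonal_one]
  refine ⟨m, δ, hδ1, ?_, ?_⟩
  · intro i j
    rw [hDinv, Matrix.mul_diagonal, Matrix.diagonal_mul, Matrix.map_apply]
    show (_ : RatFunc F).intDegree ≤ 0
    by_cases h0 : δ i j = 0
    · rw [h0]; simp
    · have h5 := DB.iff.1 (hδ2 i j) h0
      rw [RatFunc.intDegree_mul (mul_ne_zero (zpow_ne_zero _ hX0)
        (RatFunc.algebraMap_ne_zero h0)) (zpow_ne_zero _ hX0),
        RatFunc.intDegree_mul (zpow_ne_zero _ hX0) (RatFunc.algebraMap_ne_zero h0),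
        intDegree_X_zpow, intDegree_X_zpow, RatFunc.intDegree_polynomial]
      omega
  · obtain ⟨c, hc, hc'⟩ := hδdet
    have hd0 : (Matrix.diagonal (fun i => (RatFunc.X : RatFunc F) ^ d i) *
        δ.map (algebraMap F[X] (RatFunc F)) * (Dm m)⁻¹).det = RatFunc.C c := by
      rw [hDinv, Matrix.det_mul, Matrix.det_mul, Matrix.det_diagonal, Matrix.det_diagonal]
      have h3 : (δ.map (algebraMap F[X] (RatFunc F))).det = RatFunc.C c := by
        have : (δ.map (algebraMap F[X] (RatFunc F))).det = algebraMap F[X] (RatFunc F) δ.det := by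
          rw [RingHom.map_det]; rfl
        rw [this, hc']
        simp
      have h4 : ∏ i, (RatFunc.X : RatFunc F) ^ d i = 1 := by
        rw [Fin.prod_univ_three, ← zpow_add₀ hX0, ← zpow_add₀ hX0, hsum, zpow_zero]
      have h5 : ∏ i, (RatFunc.X : RatFunc F) ^ (-dd m i) = 1 := by
        rw [Fin.prod_univ_three, ← zpow_add₀ hX0, ← zpow_add₀ hX0]
        simp [dd]
      rw [h3, h4, h5]
      ring
    rw [hd0]
    have hC : RatFunc.C c ≠ 0 := by simpa using hc
    refine ⟨hC, C_mem c, ?_⟩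
    have : (RatFunc.C c)⁻¹ = RatFunc.C (c⁻¹) := by rw [map_inv₀]
    rw [this]
    exact C_mem _

end Pool.AVS
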